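import Pool.Agent.H664.QK.Stm

/-!
# Job VF: from function fields to varieties
-/

set_option autoImplicit false

namespace Pool.Agent.H233.QK

open MvPolynomial Pool.Agent.H664.QK

/-- the positive and the negative part of a monomial -/
theorem zpow_split {K : Type} [Field K] {a : K} (ha : a ≠ 0) (m : ℤ) :
    a ^ m.toNat = a ^ (-m).toNat * a ^ m := by
  rw [← zpow_natCast, ← zpow_natCast, ← zpow_add₀ ha]
  congr 1
  omega

theorem prod_split {n : ℕ} {K : Type} [Field K] {p : Fin n ⊕ Fin n → K}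
    (hp : ∀ i, p (Sum.inr i) ≠ 0) (m : Fin n → ℤ) :
    ∏ j, p (Sum.inr j) ^ (m j).toNat =
      (∏ j, p (Sum.inr j) ^ (-(m j)).toNat) * ∏ j, p (Sum.inr j) ^ m j := by
  rw [← Finset.prod_mul_distrib]
  exact Finset.prod_congr rfl fun j _ => zpow_split (hp j) (m j)

/-- clearing denominators in `f (actF M p)` -/
theorem clear_act {n : ℕ} (M : Matrix (Fin n) (Fin n) ℤ) (f : MvPolynomial (Fin n ⊕ Fin n) ℂ) :
    ∃ (F : MvPolynomial (Fin n ⊕ Fin n) ℂ) (e : Fin n → ℕ), ∀ (K : Type) [Field K] [Algebra ℂ K]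
      (p : Fin n ⊕ Fin n → K), (∀ i, p (Sum.inr i) ≠ 0) →
      aeval p F = (∏ i, p (Sum.inr i) ^ e i) * aeval (actF M p) f := by
  induction f using MvPolynomial.induction_on with
  | C a =>
    refine ⟨C a, 0, fun K _ _ p hp => ?_⟩
    simp
  | add f g hf hg =>
    obtain ⟨F, e, hF⟩ := hf
    obtain ⟨G, e', hG⟩ := hg
    refine ⟨F * (∏ i, X (Sum.inr i) ^ e' i) + G * (∏ i, X (Sum.inr i) ^ e i), e + e',
      fun K _ _ p hp => ?_⟩
    simp only [map_add, map_mul, map_prod, map_pow, aeval_X, hF K p hp, hG K p hp, Pi.add_apply,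
      pow_add, Finset.prod_mul_distrib]
    ring
  | mul_X f j hf =>
    obtain ⟨F, e, hF⟩ := hf
    rcases j with i | i
    · refine ⟨F * ∑ j, C (M i j : ℂ) * X (Sum.inl j), e, fun K _ _ p hp => ?_⟩
      have e1 : actF M p (Sum.inl i) = ∑ j, (M i j : K) * p (Sum.inl j) := rfl
      simp only [map_mul, map_sum, aeval_X, hF K p hp, map_intCast, e1]
      ring
    · refine ⟨F * ∏ j, X (Sum.inr j) ^ (M i j).toNat, e + fun j => (-(M i j)).toNat,
        fun K _ _ p hp => ?_⟩
      have e1 : actF M p (Sum.inr i) = ∏ j, p (Sum.inr j) ^ M i j := rfl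
      simp only [map_mul, map_prod, map_pow, aeval_X, hF K p hp, e1, Pi.add_apply,
        pow_add, Finset.prod_mul_distrib, prod_split hp (M i)]
      ring

/-- the generic point -/
theorem exists_gen {σ : Type} (I : Ideal (MvPolynomial σ ℂ)) (hI : I.IsPrime) :
    ∃ (Ω : Type) (_ : Field Ω) (_ : Algebra ℂ Ω) (w : σ → Ω), ∀ f : MvPolynomial σ ℂ,
      aeval w f = 0 ↔ f ∈ I := by
  have := hI
  refine ⟨FractionRing (MvPolynomial σ ℂ ⧸ I), inferInstance, inferInstance,
    fun j => algebraMap (MvPolynomial σ ℂ ⧸ I) _ (Ideal.Quotient.mk I (X j)), fun f => ?_⟩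
  have h1 := aeval_unique ((IsScalarTower.toAlgHom ℂ (MvPolynomial σ ℂ ⧸ I)
    (FractionRing (MvPolynomial σ ℂ ⧸ I))).comp (Ideal.Quotient.mkₐ ℂ I))
  have h2 : aeval (fun j => algebraMap (MvPolynomial σ ℂ ⧸ I)
      (FractionRing (MvPolynomial σ ℂ ⧸ I)) (Ideal.Quotient.mk I (X j))) f =
      algebraMap (MvPolynomial σ ℂ ⧸ I) (FractionRing (MvPolynomial σ ℂ ⧸ I))
        (Ideal.Quotient.mk I f) := (DFunLike.congr_fun h1 f).symm
  rw [h2, map_eq_zero_iff _ (IsFractionRing.injective (MvPolynomial σ ℂ ⧸ I)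
    (FractionRing (MvPolynomial σ ℂ ⧸ I))), Ideal.Quotient.eq_zero_iff_mem]

theorem aev {σ : Type} (p : σ → ℂ) (f : MvPolynomial σ ℂ) : aeval p f = eval p f := by
  rw [aeval_def]
  rfl

/-- the Nullstellensatz for varieties in the torus -/
theorem mem_iff {n : ℕ} {I : Ideal (MvPolynomial (Fin n ⊕ Fin n) ℂ)}
    {V : Set (Fin n ⊕ Fin n → ℂ)} (hI : IsVr I V) (f : MvPolynomial (Fin n ⊕ Fin n) ℂ) :
    f ∈ I ↔ ∀ p ∈ V, eval p f = 0 := by
  have := hI.prime
  constructor
  · intro hf p hp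
    rw [hI.points] at hp
    exact hp.1 f hf
  · intro hf
    have h1 : f * ∏ j : Fin n, X (Sum.inr j) ∈ I := by
      rw [← MvPolynomial.IsPrime.vanishingIdeal_zeroLocus (K := ℂ) I]
      intro x hx
      rw [map_mul, map_prod]
      by_cases h : ∀ j : Fin n, x (Sum.inr j) ≠ 0
      · have hxV : x ∈ V := by
          rw [hI.points]
          refine ⟨fun g hg => ?_, h⟩
          rw [← aev]
          exact hx g hg
        rw [aev, hf x hxV, zero_mul]
      · push Not at h
        obtain ⟨j, hj⟩ := h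
        rw [Finset.prod_eq_zero (Finset.mem_univ j) (by rw [aeval_X, hj]), mul_zero]
    rcases hI.prime.mem_or_mem h1 with h | h
    · exact h
    · exfalso
      obtain ⟨j, -, hj⟩ := (hI.prime.prod_mem_iff).1 h
      obtain ⟨p, hp⟩ := hI.nonempty
      rw [hI.points] at hp
      have := hp.1 _ hj
      rw [eval_X] at this
      exact hp.2 j this

/-- algebraic independence from independence on a set -/
theorem indep_of {σ Ω : Type} [Field Ω] [Algebra ℂ Ω] {w : σ → Ω} {S : Set (σ → ℂ)} {J : Finset σ}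
    (h : ∀ f : MvPolynomial σ ℂ, aeval w f = 0 → ∀ p ∈ S, eval p f = 0)
    (hJ : ∀ f : MvPolynomial σ ℂ, f.vars ⊆ J → (∀ p ∈ S, eval p f = 0) → f = 0) :
    AlgebraicIndependent ℂ (fun j : J => w j) := by
  classical
  rw [algebraicIndependent_iff]
  intro g hg
  have h1 : aeval w (rename (Subtype.val : J → σ) g) = 0 := by
    rw [aeval_rename]
    exact hg
  have h2 : rename (Subtype.val : J → σ) g = 0 := by
    refine hJ _ ?_ (h _ h1)
    intro j hj
    have := vars_rename (Subtype.val : J → σ) g hj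
    obtain ⟨i, -, rfl⟩ := Finset.mem_image.1 this
    exact i.2
  exact (map_eq_zero_iff _ (rename_injective _ Subtype.val_injective)).1 h2

/-- independence on a set from algebraic independence -/
theorem idp_of {σ Ω : Type} [Field Ω] [Algebra ℂ Ω] {w : σ → Ω} {J : Finset σ}
    (hJ : AlgebraicIndependent ℂ (fun j : J => w j)) {f : MvPolynomial σ ℂ} (hf : f.vars ⊆ J)
    (h0 : aeval w f = 0) : f = 0 := by
  obtain ⟨g, rfl⟩ := exists_rename_eq_of_vars_subset_range f (Subtype.val : J → σ)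
    Subtype.val_injective (by
      intro j hj
      exact ⟨⟨j, hf hj⟩, rfl⟩)
  rw [aeval_rename] at h0
  have : g = 0 := (algebraicIndependent_iff.1 hJ) g h0
  rw [this, map_zero]

theorem vf : S_vf := by
  intro n d hF I V hI hV hd hd'
  obtain ⟨Ω, _, _, w, hw⟩ := exists_gen I hI.prime
  have hz : ∀ f : MvPolynomial (Fin n ⊕ Fin n) ℂ, aeval w f = 0 ↔ ∀ p ∈ V, eval p f = 0 :=
    fun f => (hw f).trans (mem_iff hI f)
  have hV0 : ∀ p ∈ V, ∀ j : Fin n, p (Sum.inr j) ≠ 0 := by
    intro p hp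
    rw [hI.points] at hp
    exact hp.2
  have hw0 : ∀ j : Fin n, w (Sum.inr j) ≠ 0 := by
    intro j h0
    obtain ⟨p, hp⟩ := hI.nonempty
    have h1 := (hz (X (Sum.inr j))).1 (by rw [aeval_X, h0]) p hp
    rw [eval_X] at h1
    exact hV0 p hp j h1
  have hsum : Sum.elim (fun i => w (Sum.inl i)) (fun i => w (Sum.inr i)) = w :=
    Sum.elim_comp_inl_inr w
  -- freeness and rotundity
  have hFR : FRt ℂ (fun i => w (Sum.inl i)) (fun i => w (Sum.inr i)) := by
    refine ⟨hw0, ?_, ?_, ?_⟩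
    · intro m hm c hc
      obtain ⟨p, hp, hne⟩ := hV.add m hm c
      have h1 : aeval w ((∑ j, C (m j : ℂ) * X (Sum.inl j)) - C c) = 0 := by
        simp only [map_sub, map_sum, map_mul, aeval_C, aeval_X, map_intCast]
        rw [hc, sub_self]
      have h2 := (hz _).1 h1 p hp
      simp only [map_sub, map_sum, map_mul, eval_C, eval_X] at h2
      exact hne (sub_eq_zero.1 h2)
    · intro m hm c hc
      obtain ⟨p, hp, hne⟩ := hV.mul m hm c
      have h1 : aeval w ((∏ j, X (Sum.inr j) ^ (m j).toNat) -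
          C c * ∏ j, X (Sum.inr j) ^ (-(m j)).toNat) = 0 := by
        simp only [map_sub, map_prod, map_mul, map_pow, aeval_C, aeval_X]
        rw [prod_split hw0 m, hc]
        ring
      have h2 := (hz _).1 h1 p hp
      simp only [map_sub, map_prod, map_mul, map_pow, eval_C, eval_X] at h2
      rw [prod_split (hV0 p hp) m] at h2
      have h3 : ∏ j, p (Sum.inr j) ^ (-(m j)).toNat ≠ 0 :=
        Finset.prod_ne_zero_iff.2 fun j _ => pow_ne_zero _ (hV0 p hp j)
      apply hne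
      apply mul_left_cancel₀ h3
      rw [sub_eq_zero.1 h2, mul_comm]
    · intro M
      obtain ⟨J, hJc, hJ⟩ := hV.rot M
      refine ⟨J, hJc, indep_of (S := actF M '' V) ?_ hJ⟩
      rw [hsum]
      intro f hf
      obtain ⟨G, e, hG⟩ := clear_act M f
      have h1 : aeval w G = 0 := by rw [hG Ω w hw0, hf, mul_zero]
      rintro _ ⟨q, hq, rfl⟩
      have h2 := hG ℂ q (hV0 q hq)
      rw [aev, aev, (hz G).1 h1 q hq] at h2
      rcases mul_eq_zero.1 h2.symm with h3 | h3
      · exact absurd h3 (Finset.prod_ne_zero_iff.2 fun j _ => pow_ne_zero _ (hV0 q hq j))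
      · exact h3
  obtain ⟨z, hzz⟩ := hF ℂ Ω (RingEquiv.refl ℂ) (fun i => w (Sum.inl i)) (fun i => w (Sum.inr i))
    hFR (by
      rw [hsum]
      obtain ⟨J, hJc, hJ⟩ := hd
      exact ⟨J, hJc, indep_of (S := V) (fun f hf => (hz f).1 hf) hJ⟩) (by
      rw [hsum]
      rintro ⟨J, hJc, hJ⟩
      exact hd' J hJc fun f hf h0 => idp_of hJ hf ((hz f).2 h0))
  refine ⟨z, ?_⟩
  rw [hI.points]
  refine ⟨fun f hf => ?_, fun j => Complex.exp_ne_zero _⟩
  have h1 := hzz f (by rw [hsum]; exact (hw f).2 hf)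
  have h2 : map ((RingEquiv.refl ℂ : ℂ ≃+* ℂ) : ℂ →+* ℂ) f = f := map_id f
  rw [h2] at h1
  exact h1

end Pool.Agent.H233.QK
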